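import Mathlib
import Pool.Agent.K1H62.MC.Plan

/-!
# Piece `S_ORTHC` of the project MC (helper62): integration by parts for compact supports
-/

set_option autoImplicit false

namespace Pool.Agent.K1H24.MC

open MeasureTheory Filter Topology Pool.Agent.K1H62.MC
open scoped ENNReal ContDiff Manifold

/-- a smooth cutoff -/
lemma exists_cutoff {K : Set E} (hK : IsCompact K) {U : Set E} (hU : IsOpen U) (hKU : K ⊆ U) :
    ∃ κ : E → ℝ, ContDiff ℝ ∞ κ ∧ HasCompactSupport κ ∧ tsupport κ ⊆ U ∧
      ∀ x ∈ K, κ =ᶠ[𝓝 x] fun _ => 1 := by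
  obtain ⟨L, hL, hKL, hLU⟩ := exists_compact_between hK hU hKU
  obtain ⟨f, hf1, hf0, -⟩ := exists_contMDiffMap_one_nhds_of_subset_interior (n := ⊤) 𝓘(ℝ, E)
    hK.isClosed hKL
  have hsupp : tsupport (f : E → ℝ) ⊆ L := by
    refine closure_minimal (fun x hx => ?_) hL.isClosed
    by_contra h
    exact hx (hf0 x h)
  refine ⟨f, f.contMDiff.contDiff, hL.of_isClosed_subset (isClosed_tsupport _) hsupp,
    hsupp.trans hLU, ?_⟩
  intro x hx
  exact (eventually_nhdsSet_iff_forall.mp hf1) x hx

lemma lineDeriv_eq_pd {f : E → ℝ} {x : E} (i : Fin 3) (hf : DifferentiableAt ℝ f x) :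
    lineDeriv ℝ f x (EuclideanSpace.single i 1) = pd i f x := by
  unfold pd
  exact hf.lineDeriv_eq_fderiv

/-- integration by parts against a smooth function with compact support -/
lemma parts {w f : E → ℝ} {C : NNReal} (hw : LipschitzWith C w) (hf : ContDiff ℝ ∞ f)
    (hfc : HasCompactSupport f) (i : Fin 3) :
    ∫ x, pd i w x * f x = - ∫ x, pd i f x * w x := by
  obtain ⟨D, hD⟩ := ContDiff.lipschitzWith_of_hasCompactSupport hfc hf (by norm_num)
  have h1 := LipschitzWith.integral_lineDeriv_mul_eq (μ := (volume : Measure E)) hw hD hfc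
    (EuclideanSpace.single i (1 : ℝ))
  have h2 : ∫ x, pd i w x * f x = ∫ x, lineDeriv ℝ w x (EuclideanSpace.single i 1) * f x := by
    refine integral_congr_ae ?_
    filter_upwards [hw.ae_differentiableAt (μ := (volume : Measure E))] with x hx
    rw [lineDeriv_eq_pd i hx]
  rw [h2, h1, ← integral_neg]
  congr 1
  funext x
  rw [lineDeriv_neg, lineDeriv_eq_pd i ((hf.differentiable (by norm_num)) x)]
  ring

/-- **S_ORTHC** -/
theorem t_ORTHC : S_ORTHC := by
  intro _ hPOT w hwL hwc hws
  obtain ⟨C, hC⟩ := hwL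
  obtain ⟨husm, hharm, -, -, -, -⟩ := hPOT
  obtain ⟨κ, hκs, hκc, hκU, hκ1⟩ := exists_cutoff hwc.isCompact (open_s 2)
    (hws.trans (fun x hx => lt_trans (by norm_num : (2 : ℝ) < 4) hx))
  set U : Set E := {x : E | 2 < s x} with hUdef
  have hU : IsOpen U := open_s 2
  set f : Fin 3 → E → ℝ := fun i x => κ x * pd i u x with hf
  have hpdu : ∀ i, ContDiffOn ℝ ∞ (pd i u) U := fun i => pd_smooth hU husm i
  have hfs : ∀ i, ContDiff ℝ ∞ (f i) := by
    intro i
    rw [contDiff_iff_contDiffAt]
    intro x
    by_cases hx : x ∈ tsupport κ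
    · exact (hκs.contDiffAt).mul ((hpdu i).contDiffAt (hU.mem_nhds (hκU hx)))
    · have h1 : f i =ᶠ[𝓝 x] fun _ => 0 := by
        have h2 := notMem_tsupport_iff_eventuallyEq.mp hx
        filter_upwards [h2] with y hy
        simp only [hf]
        rw [hy]
        simp
      exact contDiffAt_const.congr_of_eventuallyEq h1
  have hfc : ∀ i, HasCompactSupport (f i) := fun i => hκc.mul_right
  -- on the support of `w`
  have hone : ∀ x ∈ tsupport w, κ x = 1 := fun x hx => (hκ1 x hx).self_of_nhds
  have hpt : ∀ x, (MM.indicator (fun x => ∑ i, pd i u x * pd i w x)) x = ∑ i, pd i w x * f i x := by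
    intro x
    by_cases hx : x ∈ tsupport w
    · have h4x : 4 < s x := hws hx
      have hMM : x ∈ MM := h4x.le
      rw [Set.indicator_of_mem hMM]
      refine Finset.sum_congr rfl fun i _ => ?_
      simp only [hf]
      rw [hone x hx]
      ring
    · have h0 : ∀ i, pd i w x = 0 := fun i => pd_zero_of_notMem i hx
      simp only [h0, zero_mul, mul_zero, Finset.sum_const_zero, Set.indicator_apply_eq_zero,
        implies_true]
  have hMmeas : MeasurableSet MM := by
    have : IsClosed MM := isClosed_le continuous_const s_cont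
    exact this.measurableSet
  rw [← integral_indicator hMmeas]
  have h1 : ∫ x, (MM.indicator (fun x => ∑ i, pd i u x * pd i w x)) x =
      ∫ x, ∑ i, pd i w x * f i x := by
    congr 1
    funext x
    exact hpt x
  rw [h1]
  have hint : ∀ i, Integrable (fun x => pd i w x * f i x) := by
    intro i
    have hb : Integrable (fun x => lineDeriv ℝ w x (EuclideanSpace.single i 1) * f i x) := by
      have hfi : Integrable (f i) := (hfs i).continuous.integrable_of_hasCompactSupport (hfc i)
      refine hfi.bdd_mul (c := C * ‖(EuclideanSpace.single i (1 : ℝ) : E)‖) ?_ ?_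
      · exact (measurable_lineDeriv hC.continuous).aestronglyMeasurable
      · exact Filter.Eventually.of_forall fun x => norm_lineDeriv_le_of_lipschitz ℝ hC
    refine hb.congr ?_
    filter_upwards [hC.ae_differentiableAt (μ := (volume : Measure E))] with x hx
    rw [lineDeriv_eq_pd i hx]
  rw [integral_finsetSum _ (fun i _ => hint i)]
  have h2 : ∀ i, ∫ x, pd i w x * f i x = - ∫ x, pd i (f i) x * w x := fun i =>
    parts hC (hfs i) (hfc i) i
  rw [Finset.sum_congr rfl (fun i _ => h2 i), Finset.sum_neg_distrib]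
  have hint2 : ∀ i, Integrable (fun x => pd i (f i) x * w x) := by
    intro i
    have hcont : Continuous (pd i (f i)) := (pd_smooth' (hfs i) i).continuous
    exact (hcont.mul hC.continuous).integrable_of_hasCompactSupport hwc.mul_left
  rw [← integral_finsetSum _ (fun i _ => hint2 i), neg_eq_zero]
  have h3 : ∀ x, ∑ i, pd i (f i) x * w x = 0 := by
    intro x
    by_cases hx : x ∈ tsupport w
    · have hxU : x ∈ U := lt_trans (by norm_num : (2 : ℝ) < 4) (hws hx)
      have h4 : ∀ i, pd i (f i) x = pd i (pd i u) x := by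
        intro i
        refine pd_congr i ?_
        filter_upwards [hκ1 x hx] with y hy
        simp only [hf]
        rw [hy, one_mul]
      rw [← Finset.sum_mul, Finset.sum_congr rfl (fun i _ => h4 i), hharm x hxU, zero_mul]
    · rw [image_eq_zero_of_notMem_tsupport hx]
      simp
  simp only [h3, integral_zero]

end Pool.Agent.K1H24.MC
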